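import Pool.Agent.Helper82.IW.Goals
import Pool.Agent.Helper28.BA.GRAD
import Pool.Agent.Helper28.BA.DUAL
import Pool.Agent.Helper24.BA.TINT
import Pool.Agent.Helper11.BA.RAW
import Pool.Agent.Helper54.BA.CT
import Pool.Agent.Helper56.BA.APP
import Pool.Agent.Helper62.BA.DENS
import Pool.Agent.Helper69.BA.MOLL
import Pool.Agent.Helper65.BA.CLOS
import Pool.Agent.Helper27.BA.IBP
import Pool.Agent.Helper91.BA.DET

/-!
# Iwaniec's conjecture (MP_f7b570_an), second half

From the core inequality `CORE_C` of `Pool.Agent.Helper82.IW.Goals` (complex potentials) to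
`‖∂̄f‖_p ≤ (p* - 1) ‖∂f‖_p` for all `f` in `C_c^1` and all `p > 1`: integration over the scales
(`TINT`), Burkholder's pointwise inequality (`burk`), approximation (`APP`, `MOLL`, `CLOS`) for
`1 < q < 2`, and duality (`DUAL`) for `p > 2`.
-/

open Complex MeasureTheory Set Filter Topology
open scoped ContDiff

namespace Pool.Agent.Helper28.IW

open Pool.Agent.Helper28.BA
open Pool.Agent.Helper82.IW (CORE_C)

/-- potentials, `1 < q < 2` -/
theorem pot (hC : CORE_C) {q : ℝ} (hq1 : 1 < q) (hq2 : q < 2) (U : ℂ → ℂ)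
    (hU : ContDiff ℝ ∞ U) (hc : HasCompactSupport U) :
    ∫ z, ‖db (fun x => 2 * db U x) z‖ ^ q ≤
      (1 / (q - 1)) ^ q * ∫ z, ‖dz (fun x => 2 * db U x) z‖ ^ q := by
  have hq0 : 0 < q - 1 := by linarith
  have hs : ContDiff ℝ ∞ (fun x => 2 * db U x) := contDiff_const.mul (Helper11.BA.db_smooth hU)
  have hsc : HasCompactSupport (fun x => 2 * db U x) := (Helper11.BA.db_supp hc).mul_left
  have hs1 : ContDiff ℝ 1 (fun x => 2 * db U x) := contDiff_infty.1 hs 1
  obtain ⟨S, hS⟩ : ∃ S : ℂ → ℝ, S = fun z => ‖dz (fun x => 2 * db U x) z‖ := ⟨_, rfl⟩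
  obtain ⟨D, hD⟩ : ∃ D : ℂ → ℝ, D = fun z => ‖db (fun x => 2 * db U x) z‖ := ⟨_, rfl⟩
  have hSz : ∀ z, ‖dz (fun x => 2 * db U x) z‖ = S z := fun z => by rw [hS]
  have hDz : ∀ z, ‖db (fun x => 2 * db U x) z‖ = D z := fun z => by rw [hD]
  have cS : Continuous S := by rw [hS]; exact (Helper11.BA.dz_cont hs1).norm
  have cD : Continuous D := by rw [hD]; exact (Helper11.BA.db_cont hs1).norm
  have kS : HasCompactSupport S := by rw [hS]; exact (Helper11.BA.dz_supp hsc).norm
  have kD : HasCompactSupport D := by rw [hD]; exact (Helper11.BA.db_supp hsc).norm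
  have nS : ∀ z, 0 ≤ S z := fun z => by rw [hS]; exact norm_nonneg _
  have nD : ∀ z, 0 ≤ D z := fun z => by rw [hD]; exact norm_nonneg _
  have hA : ∀ t : ℝ, 0 < t →
      0 ≤ ∫ z, (if S z + D z ≤ t then S z ^ 2 - D z ^ 2 else 2 * t * S z - t ^ 2) := by
    intro t ht
    have e1 : ContDiff ℝ ∞ fun z => ((t⁻¹ : ℝ) : ℂ) * U z := contDiff_const.mul hU
    have e2 : HasCompactSupport fun z => ((t⁻¹ : ℝ) : ℂ) * U z := hc.mul_left
    have e3 := hC _ e1 e2
    have e4 : (fun w => 2 * db (fun z => ((t⁻¹ : ℝ) : ℂ) * U z) w) =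
        fun w => ((t⁻¹ : ℝ) : ℂ) * (2 * db U w) := by
      funext w
      rw [db_const_mul _ (hU.differentiable (by simp) w)]
      ring
    have e5 : ∀ z, psi ‖dz (fun w => 2 * db (fun z => ((t⁻¹ : ℝ) : ℂ) * U z) w) z‖
        ‖db (fun w => 2 * db (fun z => ((t⁻¹ : ℝ) : ℂ) * U z) w) z‖ =
        t⁻¹ ^ 2 * (if S z + D z ≤ t then S z ^ 2 - D z ^ 2 else 2 * t * S z - t ^ 2) := by
      intro z
      have hd : DifferentiableAt ℝ (fun x => 2 * db U x) z := hs1.differentiable (by norm_num) z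
      rw [e4, dz_const_mul _ hd, db_const_mul _ hd, norm_mul, norm_mul, hSz, hDz]
      have e6 : ‖((t⁻¹ : ℝ) : ℂ)‖ = t⁻¹ := by
        rw [Complex.norm_real, Real.norm_of_nonneg (by positivity)]
      rw [e6]
      unfold psi
      have e7 : (t⁻¹ * S z + t⁻¹ * D z ≤ 1) ↔ (S z + D z ≤ t) := by
        rw [← mul_add, inv_mul_le_iff₀ ht, mul_one]
      simp only [e7]
      split_ifs with h
      · ring
      · field_simp
    simp only [e5] at e3
    rw [integral_const_mul] at e3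
    have e8 : 0 < t⁻¹ ^ 2 := by positivity
    exact nonneg_of_mul_nonneg_right e3 e8
  have iP : ∀ r : ℝ, 0 < r → ∀ F : ℂ → ℝ, Continuous F → HasCompactSupport F →
      Integrable fun z => F z ^ r := by
    intro r hr F cF kF
    refine Continuous.integrable_of_hasCompactSupport ?_ ?_
    · exact cF.rpow_const fun z => Or.inr hr.le
    · exact kF.comp_left (g := fun x : ℝ => x ^ r) (by simp [hr.ne'])
  simp only [hSz, hDz]
  have f1 := Helper24.BA.TINT q hq1 hq2 S D cS cD kS kD nS nD hA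
  obtain ⟨α, hα, hb⟩ := Iw.burk hq1
  rw [Iw.cst_le_two hq1 hq2.le] at hb
  have i1 : Integrable fun z => (S z + D z) ^ (q - 1) * (S z - (q - 1) * D z) := by
    refine Continuous.integrable_of_hasCompactSupport ?_ ?_
    · exact ((cS.add cD).rpow_const fun z => Or.inr hq0.le).mul (by fun_prop)
    · exact kS.comp₂_left
        (m := fun x y : ℝ => (x + y) ^ (q - 1) * (x - (q - 1) * y)) kD (by simp)
  have i2 := iP q (by linarith) S cS kS
  have i3 := iP q (by linarith) D cD kD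
  have f2 : ∫ z, α / (q - 1) * ((S z + D z) ^ (q - 1) * (S z - (q - 1) * D z)) ≤
      ∫ z, ((1 / (q - 1)) ^ q * S z ^ q - D z ^ q) := by
    refine integral_mono (i1.const_mul _) ((i2.const_mul _).sub i3) fun z => ?_
    have f3 := hb (S z) (D z) (nS z) (nD z)
    refine le_trans (le_of_eq ?_) f3
    field_simp
  rw [integral_const_mul, integral_sub (i2.const_mul _) i3, integral_const_mul] at f2
  have f4 : 0 ≤ α / (q - 1) := by positivity
  have f5 := mul_nonneg f4 f1
  linarith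

/-- `1 < q < 2` -/
theorem low (hC : CORE_C) {q : ℝ} (hq1 : 1 < q) (hq2 : q < 2) : Bd q (1 / (q - 1)) := by
  have hq0 : 0 < q - 1 := by linarith
  have hK : (0 : ℝ) ≤ (1 / (q - 1)) ^ q := by positivity
  have h4 : S_APP := Helper56.BA.APP Helper54.BA.CT
  have h5 : S_MOLL := Helper69.BA.MOLL
  have h6 : S_CLOS := Helper65.BA.CLOS
  have hS : ∀ h : ℂ → ℂ, ContDiff ℝ ∞ h → HasCompactSupport h →
      ∫ z, ‖db h z‖ ^ q ≤ (1 / (q - 1)) ^ q * ∫ z, ‖dz h z‖ ^ q := by
    intro h hh hc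
    have hh1 : ContDiff ℝ 1 h := contDiff_infty.1 hh 1
    refine h6 q _ hq1 hK (db h) (dz h) (Helper11.BA.db_cont hh1) (Helper11.BA.dz_cont hh1)
      (Helper11.BA.db_supp hc) (Helper11.BA.dz_supp hc) ?_
    intro ε hε
    obtain ⟨V, hVs, hVc, ha, hb⟩ := h4 h hh hc q ε hq1 hε
    have hs : ContDiff ℝ ∞ (fun x => 2 * db V x) :=
      contDiff_const.mul (Helper11.BA.db_smooth hVs)
    have hsc : HasCompactSupport (fun x => 2 * db V x) := (Helper11.BA.db_supp hVc).mul_left
    have hs1 := contDiff_infty.1 hs 1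
    exact ⟨db (fun x => 2 * db V x), dz (fun x => 2 * db V x), Helper11.BA.db_cont hs1,
      Helper11.BA.dz_cont hs1, Helper11.BA.db_supp hsc, Helper11.BA.dz_supp hsc, hb, ha,
      pot hC hq1 hq2 V hVs hVc⟩
  intro f hf hfc
  refine h6 q _ hq1 hK (db f) (dz f) (Helper11.BA.db_cont hf) (Helper11.BA.dz_cont hf)
    (Helper11.BA.db_supp hfc) (Helper11.BA.dz_supp hfc) ?_
  intro ε hε
  obtain ⟨h, hh, hhc, ha, hb⟩ := h5 f hf hfc q ε hq1 hε
  have hs1 := contDiff_infty.1 hh 1
  exact ⟨db h, dz h, Helper11.BA.db_cont hs1, Helper11.BA.dz_cont hs1, Helper11.BA.db_supp hhc,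
    Helper11.BA.dz_supp hhc, hb, ha, hS h hh hhc⟩

/-- `q = 2` -/
theorem two : Bd 2 1 := by
  intro f hf hfc
  have hB := Helper91.BA.DET f (lip_of_c1 hf hfc) hfc
  have i1 : Integrable fun z => ‖dz f z‖ ^ 2 := by
    refine Continuous.integrable_of_hasCompactSupport
      ((Helper11.BA.dz_cont hf).norm.pow 2) ?_
    exact (Helper11.BA.dz_supp hfc).norm.comp_left (g := fun x : ℝ => x ^ 2) (by norm_num)
  have i2 : Integrable fun z => ‖db f z‖ ^ 2 := by
    refine Continuous.integrable_of_hasCompactSupport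
      ((Helper11.BA.db_cont hf).norm.pow 2) ?_
    exact (Helper11.BA.db_supp hfc).norm.comp_left (g := fun x : ℝ => x ^ 2) (by norm_num)
  rw [integral_sub i1 i2] at hB
  simp only [Real.rpow_two, one_pow, one_mul]
  linarith

/-- **Iwaniec's conjecture**, from the core inequality. -/
theorem iwaniec (hC : CORE_C) (p : ℝ) (hp : 1 < p) : Bd p (max p (p / (p - 1)) - 1) := by
  have hp1 : 0 < p - 1 := by linarith
  rcases lt_trichotomy p 2 with h | rfl | h
  · have e : max p (p / (p - 1)) - 1 = 1 / (p - 1) := Iw.cst_le_two hp h.le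
    rw [e]
    exact low hC hp h
  · have e : max (2 : ℝ) (2 / (2 - 1)) - 1 = 1 := by norm_num
    rw [e]
    exact two
  · have e : max p (p / (p - 1)) - 1 = p - 1 := Iw.cst_ge_two h.le
    rw [e]
    have hq1 : 1 < p / (p - 1) := by rw [lt_div_iff₀ hp1]; linarith
    have hq2 : p / (p - 1) < 2 := by rw [div_lt_iff₀ hp1]; linarith
    have h1 := low hC hq1 hq2
    have e1 : 1 / (p / (p - 1) - 1) = p - 1 := by
      field_simp
      ring
    rw [e1] at h1
    have h2 := DUAL (Helper62.BA.DENS Helper54.BA.CT) (Helper27.BA.IBP Helper91.BA.DET)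
      (p / (p - 1)) (p - 1) hq1 hp1.le h1
    have e2 : p / (p - 1) / (p / (p - 1) - 1) = p := by
      field_simp
      ring
    rwa [e2] at h2

end Pool.Agent.Helper28.IW
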