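import Pool.Agent.Helper28.IW.Second
import Pool.Agent.Helper82.IW.Core

/-!
# Iwaniec's conjecture in the homogeneous Sobolev spaces, the Beurling-Ahlfors transform on `L^p`,
and Sverak's inequality
-/

open Complex MeasureTheory Set Filter Topology
open scoped ContDiff ENNReal

namespace Pool.Agent.Helper28.IW

open Pool.Agent.Helper28.BA

/-- `db u = dz v` in the sense of distributions (`u`, `v` of class `L^p`). -/
def Rel (u v : ℂ → ℂ) : Prop := ∀ φ : ℂ → ℂ, ContDiff ℝ ∞ φ → HasCompactSupport φ →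
  ∫ z, u z * db φ z = ∫ z, v z * dz φ z

/-- the norm in `L^p` -/
noncomputable def nm (p : ℝ) (f : ℂ → ℂ) : ℝ := (eLpNorm f (ENNReal.ofReal p) volume).toReal

theorem nm_nonneg (p : ℝ) (f : ℂ → ℂ) : 0 ≤ nm p f := ENNReal.toReal_nonneg

theorem nm_pow {p : ℝ} (hp : 0 < p) {f : ℂ → ℂ} (hf : MemLp f (ENNReal.ofReal p) volume) :
    nm p f ^ p = ∫ z, ‖f z‖ ^ p := by
  have h2 : ENNReal.ofReal p ≠ 0 := by
    rw [Ne, ENNReal.ofReal_eq_zero, not_le]
    exact hp
  have h3 : 0 ≤ ∫ z, ‖f z‖ ^ p :=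
    integral_nonneg fun z => Real.rpow_nonneg (norm_nonneg _) _
  unfold nm
  rw [hf.eLpNorm_eq_integral_rpow_norm h2 ENNReal.ofReal_ne_top, ENNReal.toReal_ofReal hp.le,
    ENNReal.toReal_ofReal (Real.rpow_nonneg h3 _), ← Real.rpow_mul h3, inv_mul_cancel₀ hp.ne',
    Real.rpow_one]

theorem nm_le_of {p : ℝ} (hp : 0 < p) {f : ℂ → ℂ} (hf : MemLp f (ENNReal.ofReal p) volume)
    {d : ℝ} (hd : 0 ≤ d) (h : ∫ z, ‖f z‖ ^ p ≤ d ^ p) : nm p f ≤ d := by
  rw [← nm_pow hp hf] at h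
  exact (Real.rpow_le_rpow_iff (nm_nonneg p f) hd hp).1 h

theorem nm_add {p : ℝ} (hp : 1 ≤ p) {f g : ℂ → ℂ} (hf : MemLp f (ENNReal.ofReal p) volume)
    (hg : MemLp g (ENNReal.ofReal p) volume) : nm p (fun z => f z + g z) ≤ nm p f + nm p g := by
  have h1 : eLpNorm (f + g) (ENNReal.ofReal p) volume ≤ eLpNorm f (ENNReal.ofReal p) volume +
      eLpNorm g (ENNReal.ofReal p) volume :=
    eLpNorm_add_le hf.1 hg.1 (by rw [ENNReal.one_le_ofReal]; exact hp)
  unfold nm
  rw [← ENNReal.toReal_add hf.2.ne hg.2.ne]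
  exact ENNReal.toReal_mono (ENNReal.add_ne_top.2 ⟨hf.2.ne, hg.2.ne⟩) h1

theorem nm_congr {p : ℝ} {f g : ℂ → ℂ} (h : ∀ z, ‖f z‖ = ‖g z‖) : nm p f = nm p g := by
  unfold nm
  rw [eLpNorm_congr_norm_ae (Eventually.of_forall h)]

theorem nm_congr_ae {p : ℝ} {f g : ℂ → ℂ} (h : f =ᵐ[volume] g) : nm p f = nm p g := by
  unfold nm
  rw [eLpNorm_congr_ae h]

theorem nm_sub_le {p : ℝ} (hp : 1 ≤ p) {f g h : ℂ → ℂ} (hf : MemLp f (ENNReal.ofReal p) volume)
    (hg : MemLp g (ENNReal.ofReal p) volume) (hh : MemLp h (ENNReal.ofReal p) volume) :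
    nm p (fun z => f z - h z) ≤ nm p (fun z => f z - g z) + nm p (fun z => g z - h z) := by
  have h1 := nm_add hp (hf.sub hg) (hg.sub hh)
  refine le_trans (le_of_eq ?_) h1
  refine nm_congr fun z => ?_
  simp

/-- Hölder -/
theorem holder {p q : ℝ} (hpq : p.HolderConjugate q) {a w : ℂ → ℂ}
    (ha : MemLp a (ENNReal.ofReal p) volume) (hw : MemLp w (ENNReal.ofReal q) volume) :
    Integrable (fun z => a z * w z) ∧ ‖∫ z, a z * w z‖ ≤ nm p a * nm q w := by
  have hp := hpq.pos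
  have hq := hpq.symm.pos
  have e1 := integral_mul_norm_le_Lp_mul_Lq hpq ha hw
  have e2 : (∫ z, ‖a z‖ ^ p) ^ (1 / p) = nm p a := by
    rw [← nm_pow hp ha, ← Real.rpow_mul (nm_nonneg _ _), mul_one_div_cancel hp.ne', Real.rpow_one]
  have e3 : (∫ z, ‖w z‖ ^ q) ^ (1 / q) = nm q w := by
    rw [← nm_pow hq hw, ← Real.rpow_mul (nm_nonneg _ _), mul_one_div_cancel hq.ne', Real.rpow_one]
  rw [e2, e3] at e1
  have hi : Integrable (fun z => a z * w z) := by
    have : ENNReal.HolderConjugate (ENNReal.ofReal p) (ENNReal.ofReal q) := by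
      exact hpq.ennrealOfReal
    exact ha.integrable_mul hw
  refine ⟨hi, ?_⟩
  refine le_trans (norm_integral_le_integral_norm _) ?_
  simpa only [norm_mul] using e1

theorem dz_memLp {f : ℂ → ℂ} (hf : ContDiff ℝ 1 f) (hc : HasCompactSupport f) (p : ℝ) :
    MemLp (dz f) (ENNReal.ofReal p) volume :=
  (Helper11.BA.dz_cont hf).memLp_of_hasCompactSupport (Helper11.BA.dz_supp hc)

theorem db_memLp {f : ℂ → ℂ} (hf : ContDiff ℝ 1 f) (hc : HasCompactSupport f) (p : ℝ) :
    MemLp (db f) (ENNReal.ofReal p) volume :=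
  (Helper11.BA.db_cont hf).memLp_of_hasCompactSupport (Helper11.BA.db_supp hc)

theorem bd_nm {p N : ℝ} (hp : 1 < p) (hN : 0 ≤ N) (hB : Bd p N) {f : ℂ → ℂ}
    (hf : ContDiff ℝ 1 f) (hc : HasCompactSupport f) : nm p (db f) ≤ N * nm p (dz f) := by
  have hp0 : 0 < p := by linarith
  refine nm_le_of hp0 (db_memLp hf hc p) (mul_nonneg hN (nm_nonneg _ _)) ?_
  rw [Real.mul_rpow hN (nm_nonneg _ _), nm_pow hp0 (dz_memLp hf hc p)]
  exact hB f hf hc

/-- density of the range of `dz` -/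
theorem dens {p : ℝ} (hp : 1 < p) {g : ℂ → ℂ} (hg : MemLp g (ENNReal.ofReal p) volume) {ε : ℝ}
    (hε : 0 < ε) : ∃ φ : ℂ → ℂ, ContDiff ℝ ∞ φ ∧ HasCompactSupport φ ∧
      nm p (fun z => dz φ z - g z) ≤ ε := by
  have hp0 : 0 < p := by linarith
  have hD : S_DENS := Helper62.BA.DENS Helper54.BA.CT
  obtain ⟨k, kc, hk, kk, km⟩ := hg.exists_hasCompactSupport_integral_rpow_sub_le hp0
    (Real.rpow_pos_of_pos (half_pos hε) p)
  obtain ⟨φ, h1, h2, h3, -, -⟩ := hD k kk kc p p p _ hp hp hp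
    (Real.rpow_pos_of_pos (half_pos hε) p)
  have h4 := dz_memLp (contDiff_infty.1 h1 1) h2 p
  refine ⟨φ, h1, h2, ?_⟩
  have h5 : nm p (fun z => dz φ z - k z) ≤ ε / 2 :=
    nm_le_of hp0 (h4.sub km) (half_pos hε).le h3
  have h6 : nm p (fun z => k z - g z) ≤ ε / 2 := by
    refine nm_le_of hp0 (km.sub hg) (half_pos hε).le (le_trans (le_of_eq ?_) hk)
    refine integral_congr_ae (Eventually.of_forall fun z => ?_)
    simp only [Pi.sub_apply, norm_sub_rev]
  have h7 := nm_sub_le hp.le h4 km hg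
  linarith

theorem conj_exp {p : ℝ} (hp : 1 < p) : p.HolderConjugate (p / (p - 1)) :=
  Real.HolderConjugate.conjExponent hp

/-- uniqueness -/
theorem uniq {p : ℝ} (hp : 1 < p) {k : ℂ → ℂ} (hk : MemLp k (ENNReal.ofReal p) volume)
    (h : ∀ φ : ℂ → ℂ, ContDiff ℝ ∞ φ → HasCompactSupport φ → ∫ z, k z * dz φ z = 0) :
    k =ᵐ[volume] 0 := by
  have hq := conj_exp hp
  have hq1 : 1 < p / (p - 1) := hq.symm.lt
  have hl : LocallyIntegrable k volume :=
    hk.locallyIntegrable (by rw [ENNReal.one_le_ofReal]; exact hp.le)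
  refine ae_eq_zero_of_integral_contDiff_smul_eq_zero hl fun g hg gc => ?_
  have gm : MemLp (fun z => ((g z : ℝ) : ℂ)) (ENNReal.ofReal (p / (p - 1))) volume := by
    refine Continuous.memLp_of_hasCompactSupport (by fun_prop) ?_
    exact gc.comp_left (g := fun x : ℝ => (x : ℂ)) (by simp)
  have e1 : ∫ z, g z • k z = ∫ z, k z * ((g z : ℝ) : ℂ) := by
    refine integral_congr_ae (Eventually.of_forall fun z => ?_)
    simp [mul_comm]
  rw [e1, ← norm_le_zero_iff]
  refine le_of_forall_pos_le_add fun ε hε => ?_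
  have hK := nm_nonneg p k
  obtain ⟨φ, h1, h2, h3⟩ := dens hq1 gm (ε := ε / (nm p k + 1)) (by positivity)
  have h4 := dz_memLp (contDiff_infty.1 h1 1) h2 (p / (p - 1))
  obtain ⟨i1, -⟩ := holder hq hk h4
  obtain ⟨i2, -⟩ := holder hq hk gm
  obtain ⟨-, i3⟩ := holder hq hk (h4.sub gm)
  have e2 : ∫ z, k z * (dz φ z - ((g z : ℝ) : ℂ)) = - ∫ z, k z * ((g z : ℝ) : ℂ) := by
    simp only [mul_sub]
    rw [integral_sub i1 i2, h φ h1 h2, zero_sub]
  have i4 : ‖∫ z, k z * (dz φ z - ((g z : ℝ) : ℂ))‖ ≤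
      nm p k * nm (p / (p - 1)) (fun z => dz φ z - ((g z : ℝ) : ℂ)) := i3
  rw [e2, norm_neg] at i4
  have h5 : nm p k * nm (p / (p - 1)) (fun z => dz φ z - ((g z : ℝ) : ℂ)) ≤
      nm p k * (ε / (nm p k + 1)) := mul_le_mul_of_nonneg_left h3 hK
  have h6 : nm p k * (ε / (nm p k + 1)) ≤ ε := by
    rw [← mul_div_assoc, div_le_iff₀ (by positivity)]
    nlinarith
  linarith

/-- The main lemma: `(g, h)` with `db g = dz h` is a limit of `(dz φ, db φ)`. -/
theorem approx {p N : ℝ} (hp : 1 < p) (hN : 0 ≤ N) (hB : Bd p N) {g : ℂ → ℂ}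
    (hg : MemLp g (ENNReal.ofReal p) volume) : ∃ H : ℂ → ℂ, MemLp H (ENNReal.ofReal p) volume ∧
      Rel g H ∧ (∀ H' : ℂ → ℂ, MemLp H' (ENNReal.ofReal p) volume → Rel g H' → H' =ᵐ[volume] H) ∧
      nm p H ≤ N * nm p g ∧
      ∀ ε : ℝ, 0 < ε → ∃ φ : ℂ → ℂ, ContDiff ℝ ∞ φ ∧ HasCompactSupport φ ∧
        nm p (fun z => dz φ z - g z) ≤ ε ∧ nm p (fun z => db φ z - H z) ≤ ε := by
  have hp0 : 0 < p := by linarith
  have hq := conj_exp hp
  have hq1 : 1 < p / (p - 1) := hq.symm.lt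
  have hfact : Fact (1 ≤ ENNReal.ofReal p) := ⟨by rw [ENNReal.one_le_ofReal]; exact hp.le⟩
  choose φ f1 f2 f3 using fun n : ℕ => dens hp hg (ε := 1 / ((n : ℝ) + 1)) (by positivity)
  have f4 : ∀ n, ContDiff ℝ 1 (φ n) := fun n => contDiff_infty.1 (f1 n) 1
  have ma : ∀ n, MemLp (dz (φ n)) (ENNReal.ofReal p) volume := fun n => dz_memLp (f4 n) (f2 n) p
  have mb : ∀ n, MemLp (db (φ n)) (ENNReal.ofReal p) volume := fun n => db_memLp (f4 n) (f2 n) p
  -- the distances of the second components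
  have hd : ∀ n m, nm p (fun z => db (φ n) z - db (φ m) z) ≤
      N * (1 / ((n : ℝ) + 1) + 1 / ((m : ℝ) + 1)) := by
    intro n m
    have c1 : ContDiff ℝ 1 (fun z => φ n z - φ m z) := (f4 n).sub (f4 m)
    have c2 : HasCompactSupport (fun z => φ n z - φ m z) := (f2 n).sub (f2 m)
    have c3 := bd_nm hp hN hB c1 c2
    have c4 : db (fun z => φ n z - φ m z) = fun z => db (φ n) z - db (φ m) z := by
      funext z
      have d1 := ((f4 n).differentiable (by norm_num)) z
      have d2 := ((f4 m).differentiable (by norm_num)) z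
      unfold db
      rw [fderiv_fun_sub d1 d2]
      simp only [_root_.sub_apply]
      ring
    have c5 : dz (fun z => φ n z - φ m z) = fun z => dz (φ n) z - dz (φ m) z := by
      funext z
      have d1 := ((f4 n).differentiable (by norm_num)) z
      have d2 := ((f4 m).differentiable (by norm_num)) z
      unfold dz
      rw [fderiv_fun_sub d1 d2]
      simp only [_root_.sub_apply]
      ring
    rw [c4, c5] at c3
    refine le_trans c3 (mul_le_mul_of_nonneg_left ?_ hN)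
    refine le_trans (nm_sub_le hp.le (ma n) hg (ma m)) (add_le_add (f3 n) ?_)
    have c6 : nm p (fun z => g z - dz (φ m) z) = nm p (fun z => dz (φ m) z - g z) :=
      nm_congr fun z => norm_sub_rev _ _
    rw [c6]
    exact f3 m
  have hdist : ∀ n m, dist ((mb n).toLp (db (φ n))) ((mb m).toLp (db (φ m))) =
      nm p (fun z => db (φ n) z - db (φ m) z) := by
    intro n m
    rw [dist_eq_norm, ← MemLp.toLp_sub, Lp.norm_toLp]
    rfl
  have hcau : CauchySeq fun n => (mb n).toLp (db (φ n)) := by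
    rw [Metric.cauchySeq_iff']
    intro ε hε
    obtain ⟨M, hM⟩ := exists_nat_gt (2 * N / ε)
    refine ⟨M, fun n hn => ?_⟩
    rw [hdist]
    refine lt_of_le_of_lt (hd n M) ?_
    have c1 : (1 : ℝ) / ((n : ℝ) + 1) ≤ 1 / ((M : ℝ) + 1) := by
      have : (M : ℝ) ≤ n := by exact_mod_cast hn
      exact one_div_le_one_div_of_le (by positivity) (by linarith)
    have c2 : N * (1 / ((n : ℝ) + 1) + 1 / ((M : ℝ) + 1)) ≤ N * (2 * (1 / ((M : ℝ) + 1))) :=
      mul_le_mul_of_nonneg_left (by linarith) hN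
    refine lt_of_le_of_lt c2 ?_
    have c3 : N * (2 * (1 / ((M : ℝ) + 1))) = 2 * N / ((M : ℝ) + 1) := by ring
    rw [c3, div_lt_iff₀ (by positivity)]
    rw [div_lt_iff₀ hε] at hM
    nlinarith
  obtain ⟨L, hL⟩ := cauchySeq_tendsto_of_complete hcau
  have hLm : MemLp (L : ℂ → ℂ) (ENNReal.ofReal p) volume := Lp.memLp L
  have hlim : Tendsto (fun n => nm p (fun z => db (φ n) z - L z)) atTop (𝓝 0) := by
    rw [tendsto_iff_dist_tendsto_zero] at hL
    refine hL.congr fun n => ?_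
    rw [dist_eq_norm]
    have e1 : (mb n).toLp (db (φ n)) - L =
        ((mb n).sub hLm).toLp (fun z => db (φ n) z - L z) := by
      have := MemLp.toLp_sub (mb n) hLm
      rw [Lp.toLp_coeFn] at this
      exact this.symm
    rw [e1, Lp.norm_toLp]
    rfl
  have hlima : Tendsto (fun n => nm p (fun z => dz (φ n) z - g z)) atTop (𝓝 0) :=
    squeeze_zero (fun n => nm_nonneg _ _) f3 tendsto_one_div_add_atTop_nhds_zero_nat
  have hIBP : S_IBP := Helper27.BA.IBP Helper91.BA.DET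
  -- limits of pairings
  have hpair : ∀ (a : ℕ → ℂ → ℂ) (A w : ℂ → ℂ), (∀ n, MemLp (a n) (ENNReal.ofReal p) volume) →
      MemLp A (ENNReal.ofReal p) volume → MemLp w (ENNReal.ofReal (p / (p - 1))) volume →
      Tendsto (fun n => nm p (fun z => a n z - A z)) atTop (𝓝 0) →
      Tendsto (fun n => ∫ z, a n z * w z) atTop (𝓝 (∫ z, A z * w z)) := by
    intro a A w h1 h2 h3 h4
    rw [tendsto_iff_norm_sub_tendsto_zero]
    have e0 : Tendsto (fun n => nm p (fun z => a n z - A z) * nm (p / (p - 1)) w) atTop (𝓝 0) := by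
      simpa using h4.mul_const (nm (p / (p - 1)) w)
    refine squeeze_zero (fun n => norm_nonneg _) (fun n => ?_) e0
    have e1 := (holder hq (h1 n) h3).1
    have e2 := (holder hq h2 h3).1
    have e3 := (holder hq ((h1 n).sub h2) h3).2
    rw [← integral_sub e1 e2]
    refine le_trans (le_of_eq ?_) e3
    congr 1
    refine integral_congr_ae (Eventually.of_forall fun z => ?_)
    simp only [Pi.sub_apply]
    ring
  have hrel : Rel g L := by
    intro ψ h1 h2
    have h3 := contDiff_infty.1 h1 1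
    have t1 := hpair (fun n => dz (φ n)) g (db ψ) ma hg (db_memLp h3 h2 _) hlima
    have t2 := hpair (fun n => db (φ n)) L (dz ψ) mb hLm (dz_memLp h3 h2 _) hlim
    have t3 : ∀ n, ∫ z, dz (φ n) z * db ψ z = ∫ z, db (φ n) z * dz ψ z := fun n =>
      (hIBP (φ n) ψ (f4 n) (f2 n) h3 h2).symm
    simp only [t3] at t1
    exact tendsto_nhds_unique t1 t2
  refine ⟨L, hLm, hrel, ?_, ?_, ?_⟩
  · intro H' hm hr
    have e1 : (fun z => H' z - L z) =ᵐ[volume] 0 := by
      refine uniq hp (hm.sub hLm) fun ψ h1 h2 => ?_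
      have h3 := contDiff_infty.1 h1 1
      have h4 := dz_memLp h3 h2 (p / (p - 1))
      have i1 := (holder hq hm h4).1
      have i2 := (holder hq hLm h4).1
      simp only [sub_mul]
      rw [integral_sub i1 i2, ← hr ψ h1 h2, ← hrel ψ h1 h2, sub_self]
    filter_upwards [e1] with z hz
    have : H' z - L z = 0 := hz
    exact sub_eq_zero.1 this
  · have b1 : ∀ n, nm p L ≤ nm p (fun z => db (φ n) z - L z) +
        N * (nm p (fun z => dz (φ n) z - g z) + nm p g) := by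
      intro n
      have c1 : nm p (L : ℂ → ℂ) ≤ nm p (fun z => L z - db (φ n) z) + nm p (db (φ n)) := by
        have := nm_add hp.le (hLm.sub (mb n)) (mb n)
        refine le_trans (le_of_eq ?_) this
        exact nm_congr fun z => by simp
      have c2 : nm p (fun z => L z - db (φ n) z) = nm p (fun z => db (φ n) z - L z) :=
        nm_congr fun z => norm_sub_rev _ _
      have c3 := bd_nm hp hN hB (f4 n) (f2 n)
      have c4 : nm p (dz (φ n)) ≤ nm p (fun z => dz (φ n) z - g z) + nm p g := by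
        have := nm_add hp.le ((ma n).sub hg) hg
        refine le_trans (le_of_eq ?_) this
        exact nm_congr fun z => by simp
      have c5 := mul_le_mul_of_nonneg_left c4 hN
      linarith
    have b2 : Tendsto (fun n => nm p (fun z => db (φ n) z - L z) +
        N * (nm p (fun z => dz (φ n) z - g z) + nm p g)) atTop (𝓝 (0 + N * (0 + nm p g))) :=
      hlim.add ((hlima.add_const _).const_mul N)
    rw [zero_add, zero_add] at b2
    exact ge_of_tendsto' b2 b1
  · intro ε hε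
    have e1 := (hlim.eventually (gt_mem_nhds hε)).and (hlima.eventually (gt_mem_nhds hε))
    obtain ⟨n, h1, h2⟩ := e1.exists
    exact ⟨φ n, f1 n, f2 n, h2.le, h1.le⟩

end Pool.Agent.Helper28.IW
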