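import Pool.Agent.Helper28.IW.Twin

/-!
# Iwaniec's conjecture in the homogeneous Sobolev spaces and Sverak's inequality, conclusion
-/

open Complex MeasureTheory Set Filter Topology
open scoped ContDiff ENNReal

namespace Pool.Agent.Helper28.IW

open Pool.Agent.Helper28.BA

/-- weak derivatives give the relation `db (dz f) = dz (db f)` -/
theorem rel_of_weak {p : ℝ} (hp : 1 < p) {f f₁ f₂ : ℂ → ℂ}
    (m₁ : MemLp f₁ (ENNReal.ofReal p) volume) (m₂ : MemLp f₂ (ENNReal.ofReal p) volume)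
    (w₁ : ∀ φ : ℂ → ℂ, ContDiff ℝ ∞ φ → HasCompactSupport φ →
      ∫ z, f z * fderiv ℝ φ z 1 = - ∫ z, f₁ z * φ z)
    (w₂ : ∀ φ : ℂ → ℂ, ContDiff ℝ ∞ φ → HasCompactSupport φ →
      ∫ z, f z * fderiv ℝ φ z I = - ∫ z, f₂ z * φ z) :
    Rel (fun z => (1 / 2 : ℂ) * (f₁ z - I * f₂ z)) (fun z => (1 / 2 : ℂ) * (f₁ z + I * f₂ z)) := by
  intro φ h1 h2
  have hq := conj_exp hp
  have hφ : ContDiff ℝ ∞ (fderiv ℝ φ) := h1.fderiv_right (by simp)
  have cv : ∀ v : ℂ, ContDiff ℝ ∞ fun z => fderiv ℝ φ z v := fun v => hφ.clm_apply contDiff_const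
  have sv : ∀ v : ℂ, HasCompactSupport fun z => fderiv ℝ φ z v := by
    intro v
    refine (h2.fderiv (𝕜 := ℝ)).mono ?_
    intro z hz hz'
    apply hz
    have : fderiv ℝ φ z = 0 := hz'
    simp [this]
  have mv : ∀ v : ℂ, MemLp (fun z => fderiv ℝ φ z v) (ENNReal.ofReal (p / (p - 1))) volume :=
    fun v => (cv v).continuous.memLp_of_hasCompactSupport (sv v)
  have e0 : ∀ z v w : ℂ, fderiv ℝ (fun z => fderiv ℝ φ z v) z w = fderiv ℝ (fderiv ℝ φ) z w v := by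
    intro z v w
    have hd : DifferentiableAt ℝ (fderiv ℝ φ) z := (hφ.differentiable (by simp)) z
    rw [fderiv_clm_apply hd (differentiableAt_const v)]
    simp
  have e1 : ∀ z : ℂ, fderiv ℝ (fun z => fderiv ℝ φ z I) z 1 =
      fderiv ℝ (fun z => fderiv ℝ φ z 1) z I := by
    intro z
    rw [e0, e0]
    have h3 : IsSymmSndFDerivAt ℝ φ z := by
      apply (h1.contDiffAt (x := z)).isSymmSndFDerivAt
      simp only [minSmoothness_of_isRCLikeNormedField]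
      exact WithTop.coe_le_coe.2 (le_top (a := (2 : ℕ∞)))
    exact h3.eq 1 I
  have e2 := w₁ _ (cv I) (sv I)
  have e3 := w₂ _ (cv 1) (sv 1)
  simp only [e1] at e2
  have e4 : ∫ z, f₁ z * fderiv ℝ φ z I = ∫ z, f₂ z * fderiv ℝ φ z 1 := by
    have := e2.symm.trans e3
    exact neg_injective this
  have i1 := (holder hq m₁ (mv I)).1
  have i2 := (holder hq m₂ (mv 1)).1
  have m3 : MemLp (fun z => (1 / 2 : ℂ) * (f₁ z - I * f₂ z)) (ENNReal.ofReal p) volume :=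
    (m₁.sub (m₂.const_mul I)).const_mul _
  have m4 : MemLp (fun z => (1 / 2 : ℂ) * (f₁ z + I * f₂ z)) (ENNReal.ofReal p) volume :=
    (m₁.add (m₂.const_mul I)).const_mul _
  have h3 := contDiff_infty.1 h1 1
  have i3 := (holder hq m3 (db_memLp h3 h2 (p / (p - 1)))).1
  have i4 := (holder hq m4 (dz_memLp h3 h2 (p / (p - 1)))).1
  rw [← sub_eq_zero, ← integral_sub i3 i4]
  have e5 : ∀ z, (1 / 2 : ℂ) * (f₁ z - I * f₂ z) * db φ z -
      (1 / 2 : ℂ) * (f₁ z + I * f₂ z) * dz φ z =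
      (I / 2) * (f₁ z * fderiv ℝ φ z I) - (I / 2) * (f₂ z * fderiv ℝ φ z 1) := by
    intro z
    unfold dz db
    ring
  simp only [e5]
  rw [integral_sub (i1.const_mul _) (i2.const_mul _), integral_const_mul, integral_const_mul, e4,
    sub_self]

theorem cst_nonneg {p : ℝ} (hp : 1 < p) : 0 ≤ max p (p / (p - 1)) - 1 := by
  have := le_max_left p (p / (p - 1))
  linarith

/-- `L^p` solutions of `db v = dz u`, the Beurling-Ahlfors transform -/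
theorem transform {p : ℝ} (hp : 1 < p) {u : ℂ → ℂ} (hu : MemLp u (ENNReal.ofReal p) volume) :
    ∃ v : ℂ → ℂ, MemLp v (ENNReal.ofReal p) volume ∧ Rel u v ∧
      (∀ v' : ℂ → ℂ, MemLp v' (ENNReal.ofReal p) volume → Rel u v' → v' =ᵐ[volume] v) ∧
      nm p v ≤ (max p (p / (p - 1)) - 1) * nm p u := by
  obtain ⟨v, h1, h2, h3, h4, -⟩ := approx hp (cst_nonneg hp)
    (iwaniec Helper82.IW.coreC p hp) hu
  exact ⟨v, h1, h2, h3, h4⟩

/-- the inequality for pairs -/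
theorem pair_le {p : ℝ} (hp : 1 < p) {u v : ℂ → ℂ} (hu : MemLp u (ENNReal.ofReal p) volume)
    (hv : MemLp v (ENNReal.ofReal p) volume) (hr : Rel u v) :
    ∫ z, ‖v z‖ ^ p ≤ (max p (p / (p - 1)) - 1) ^ p * ∫ z, ‖u z‖ ^ p := by
  have hp0 : 0 < p := by linarith
  obtain ⟨v', h1, h2, h3, h4⟩ := transform hp hu
  have h5 := h3 v hv hr
  rw [← nm_pow hp0 hv, ← nm_pow hp0 hu, ← Real.mul_rpow (cst_nonneg hp) (nm_nonneg _ _),
    nm_congr_ae h5]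
  exact Real.rpow_le_rpow (nm_nonneg _ _) h4 hp0.le

/-! ## Sverak's inequality -/

theorem psi_close {s d s' d' u v δ : ℝ} (hs : 0 ≤ s) (hd : 0 ≤ d) (hs' : 0 ≤ s') (hd' : 0 ≤ d')
    (h1 : |s' - s| ≤ u) (h2 : |d' - d| ≤ v) (hδ : 0 < δ) :
    psi s' d' ≤ psi s d + 8 * δ * (s ^ 2 + d ^ 2) + 8 * (δ⁻¹ + 1) * (u ^ 2 + v ^ 2) := by
  have hu : 0 ≤ u := le_trans (abs_nonneg _) h1
  have hv : 0 ≤ v := le_trans (abs_nonneg _) h2
  obtain ⟨a1, a2⟩ := abs_le.1 h1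
  obtain ⟨b1, b2⟩ := abs_le.1 h2
  -- first a bound by a product
  have key : psi s' d' ≤ psi s d + 4 * (2 * (s + d) + (u + v)) * (u + v) := by
    unfold psi
    have p1 : 0 ≤ s * u := mul_nonneg hs hu
    have p2 : 0 ≤ s * v := mul_nonneg hs hv
    have p3 : 0 ≤ d * u := mul_nonneg hd hu
    have p4 : 0 ≤ d * v := mul_nonneg hd hv
    have p5 : 0 ≤ u * v := mul_nonneg hu hv
    have p6 : 0 ≤ u * u := mul_nonneg hu hu
    have p7 : 0 ≤ v * v := mul_nonneg hv hv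
    split_ifs with c1 c2 c2
    · have q1 : s' ^ 2 ≤ (s + u) ^ 2 := pow_le_pow_left₀ hs' (by linarith) 2
      have q2 : d ^ 2 ≤ (d' + v) ^ 2 := pow_le_pow_left₀ hd (by linarith) 2
      have q3 : d' * v ≤ (d + v) * v := mul_le_mul_of_nonneg_right (by linarith) hv
      nlinarith
    · -- s' + d' ≤ 1 < s + d
      have c3 := not_le.1 c2
      have q1 : s' ^ 2 - d' ^ 2 ≤ 2 * s' - 1 + (1 - s' - d') * (1 - s' + d') := by nlinarith
      have q2 : (1 - s' - d') * (1 - s' + d') ≤ (u + v) * 2 := by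
        have r1 : 1 - s' - d' ≤ u + v := by linarith
        have r2 : 0 ≤ 1 - s' - d' := by linarith
        have r3 : 1 - s' + d' ≤ 2 := by linarith
        exact mul_le_mul r1 r3 (by linarith) (by linarith)
      nlinarith
    · -- s + d ≤ 1 < s' + d'
      have c3 := not_le.1 c1
      have q1 : 2 * s - 1 ≤ s ^ 2 - d ^ 2 + (1 - s + d) * 0 + (s + d - 1) ^ 2 * 0 +
        (d ^ 2 - (1 - s) ^ 2) * 1 := by nlinarith
      have q2 : d ^ 2 ≤ (1 - s) ^ 2 := pow_le_pow_left₀ hd (by linarith) 2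
      have q3 : 1 < s + d + u + v := by linarith
      nlinarith
    · have c3 := not_le.1 c1
      have c4 := not_le.1 c2
      nlinarith
  have k1 : 4 * (2 * (s + d) + (u + v)) * (u + v) ≤
      8 * δ * (s ^ 2 + d ^ 2) + 8 * (δ⁻¹ + 1) * (u ^ 2 + v ^ 2) := by
    have g1 : (s + d) ^ 2 ≤ 2 * (s ^ 2 + d ^ 2) := by nlinarith [sq_nonneg (s - d)]
    have g2 : (u + v) ^ 2 ≤ 2 * (u ^ 2 + v ^ 2) := by nlinarith [sq_nonneg (u - v)]
    have g3 : 2 * ((s + d) * (u + v)) ≤ δ * (s + d) ^ 2 + δ⁻¹ * (u + v) ^ 2 := by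
      have e1 : 0 ≤ δ * ((s + d) - δ⁻¹ * (u + v)) ^ 2 := by positivity
      have e2 : δ * ((s + d) - δ⁻¹ * (u + v)) ^ 2 =
          δ * (s + d) ^ 2 - 2 * ((s + d) * (u + v)) + δ⁻¹ * (u + v) ^ 2 := by
        field_simp
        ring
      linarith
    have g4 : δ * (s + d) ^ 2 ≤ δ * (2 * (s ^ 2 + d ^ 2)) := mul_le_mul_of_nonneg_left g1 hδ.le
    have g5 : δ⁻¹ * (u + v) ^ 2 ≤ δ⁻¹ * (2 * (u ^ 2 + v ^ 2)) :=
      mul_le_mul_of_nonneg_left g2 (by positivity)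
    nlinarith
  linarith

theorem psi_meas : Measurable fun x : ℝ × ℝ => psi x.1 x.2 := by
  unfold psi
  refine Measurable.ite ?_ (by fun_prop) (by fun_prop)
  exact measurableSet_le (by fun_prop) (by fun_prop)

theorem psi_abs {s d : ℝ} (hs : 0 ≤ s) (hd : 0 ≤ d) : |psi s d| ≤ 4 * (s ^ 2 + d ^ 2) := by
  unfold psi
  split_ifs with h
  · rw [abs_le]
    constructor <;> nlinarith
  · have h' := not_le.1 h
    rw [abs_le]
    constructor <;> nlinarith [sq_nonneg (s - d), mul_nonneg hs hd]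

theorem sq_int {g : ℂ → ℂ} (hg : MemLp g (ENNReal.ofReal 2) volume) :
    Integrable fun z => ‖g z‖ ^ 2 := by
  have e : ENNReal.ofReal 2 = 2 := by simp
  rw [e] at hg
  exact (memLp_two_iff_integrable_sq_norm hg.1).1 hg

theorem psi_int {g h : ℂ → ℂ} (hg : MemLp g (ENNReal.ofReal 2) volume)
    (hh : MemLp h (ENNReal.ofReal 2) volume) : Integrable fun z => psi ‖g z‖ ‖h z‖ := by
  have i1 := ((sq_int hg).add (sq_int hh)).const_mul 4
  refine Integrable.mono' i1 ?_ (Eventually.of_forall fun z => ?_)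
  · exact (psi_meas.comp_aemeasurable
      (hg.1.norm.aemeasurable.prodMk hh.1.norm.aemeasurable)).aestronglyMeasurable
  · rw [Real.norm_eq_abs]
    exact psi_abs (norm_nonneg _) (norm_nonneg _)

theorem sq_nm {g : ℂ → ℂ} (hg : MemLp g (ENNReal.ofReal 2) volume) :
    ∫ z, ‖g z‖ ^ 2 = nm 2 g ^ 2 := by
  have h := nm_pow (p := 2) (by norm_num) hg
  simp only [Real.rpow_two] at h
  exact h.symm

theorem psi_closed {g h : ℂ → ℂ} (hg : MemLp g (ENNReal.ofReal 2) volume)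
    (hh : MemLp h (ENNReal.ofReal 2) volume)
    (H : ∀ ε : ℝ, 0 < ε → ∃ g' h' : ℂ → ℂ, MemLp g' (ENNReal.ofReal 2) volume ∧
      MemLp h' (ENNReal.ofReal 2) volume ∧ nm 2 (fun z => g' z - g z) ≤ ε ∧
      nm 2 (fun z => h' z - h z) ≤ ε ∧ 0 ≤ ∫ z, psi ‖g' z‖ ‖h' z‖) :
    0 ≤ ∫ z, psi ‖g z‖ ‖h z‖ := by
  have key : ∀ δ : ℝ, 0 < δ → ∀ ε : ℝ, 0 < ε →
      0 ≤ (∫ z, psi ‖g z‖ ‖h z‖) + 8 * δ * (nm 2 g ^ 2 + nm 2 h ^ 2) +
        8 * (δ⁻¹ + 1) * (ε ^ 2 + ε ^ 2) := by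
    intro δ hδ ε hε
    obtain ⟨g', h', m1, m2, n1, n2, hpos⟩ := H ε hε
    have d1 : MemLp (fun z => g' z - g z) (ENNReal.ofReal 2) volume := m1.sub hg
    have d2 : MemLp (fun z => h' z - h z) (ENNReal.ofReal 2) volume := m2.sub hh
    have i0 := psi_int hg hh
    have i1 := ((sq_int hg).add (sq_int hh)).const_mul (8 * δ)
    have i2 := ((sq_int d1).add (sq_int d2)).const_mul (8 * (δ⁻¹ + 1))
    have e1 : ∫ z, psi ‖g' z‖ ‖h' z‖ ≤ ∫ z, (psi ‖g z‖ ‖h z‖ +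
        8 * δ * (‖g z‖ ^ 2 + ‖h z‖ ^ 2) +
        8 * (δ⁻¹ + 1) * (‖g' z - g z‖ ^ 2 + ‖h' z - h z‖ ^ 2)) := by
      refine integral_mono (psi_int m1 m2) ((i0.add i1).add i2) fun z => ?_
      exact psi_close (norm_nonneg _) (norm_nonneg _) (norm_nonneg _) (norm_nonneg _)
        (abs_norm_sub_norm_le _ _) (abs_norm_sub_norm_le _ _) hδ
    have e2 : ∫ z, (psi ‖g z‖ ‖h z‖ + 8 * δ * (‖g z‖ ^ 2 + ‖h z‖ ^ 2) +
        8 * (δ⁻¹ + 1) * (‖g' z - g z‖ ^ 2 + ‖h' z - h z‖ ^ 2)) =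
        (∫ z, psi ‖g z‖ ‖h z‖) + 8 * δ * (nm 2 g ^ 2 + nm 2 h ^ 2) +
        8 * (δ⁻¹ + 1) * (nm 2 (fun z => g' z - g z) ^ 2 + nm 2 (fun z => h' z - h z) ^ 2) := by
      have t1 : Integrable fun z => 8 * δ * (‖g z‖ ^ 2 + ‖h z‖ ^ 2) := i1
      have t2 : Integrable fun z => 8 * (δ⁻¹ + 1) * (‖g' z - g z‖ ^ 2 + ‖h' z - h z‖ ^ 2) := i2
      have t3 : Integrable fun z => psi ‖g z‖ ‖h z‖ + 8 * δ * (‖g z‖ ^ 2 + ‖h z‖ ^ 2) :=
        i0.add t1
      rw [integral_add t3 t2, integral_add i0 t1, integral_const_mul,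
        integral_const_mul, integral_add (sq_int hg) (sq_int hh),
        integral_add (sq_int d1) (sq_int d2), sq_nm hg, sq_nm hh, sq_nm d1, sq_nm d2]
    have e3 : nm 2 (fun z => g' z - g z) ^ 2 + nm 2 (fun z => h' z - h z) ^ 2 ≤ ε ^ 2 + ε ^ 2 :=
      add_le_add (pow_le_pow_left₀ (nm_nonneg _ _) n1 2) (pow_le_pow_left₀ (nm_nonneg _ _) n2 2)
    have e4 := mul_le_mul_of_nonneg_left e3 (by positivity : 0 ≤ 8 * (δ⁻¹ + 1))
    linarith
  have key2 : ∀ δ : ℝ, 0 < δ → 0 ≤ (∫ z, psi ‖g z‖ ‖h z‖) + 8 * δ * (nm 2 g ^ 2 + nm 2 h ^ 2) := by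
    intro δ hδ
    refine le_of_forall_pos_le_add fun η hη => ?_
    have h1 := key δ hδ (Real.sqrt (η / (16 * (δ⁻¹ + 1)))) (by positivity)
    have h2 : Real.sqrt (η / (16 * (δ⁻¹ + 1))) ^ 2 = η / (16 * (δ⁻¹ + 1)) :=
      Real.sq_sqrt (by positivity)
    rw [h2] at h1
    have h3 : 8 * (δ⁻¹ + 1) * (η / (16 * (δ⁻¹ + 1)) + η / (16 * (δ⁻¹ + 1))) = η := by
      field_simp
      ring
    linarith
  refine le_of_forall_pos_le_add fun η hη => ?_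
  have h1 := key2 (η / (8 * (nm 2 g ^ 2 + nm 2 h ^ 2 + 1))) (by positivity)
  have h2 : 8 * (η / (8 * (nm 2 g ^ 2 + nm 2 h ^ 2 + 1))) * (nm 2 g ^ 2 + nm 2 h ^ 2) ≤ η := by
    have h3 : 8 * (η / (8 * (nm 2 g ^ 2 + nm 2 h ^ 2 + 1))) * (nm 2 g ^ 2 + nm 2 h ^ 2) =
        η * ((nm 2 g ^ 2 + nm 2 h ^ 2) / (nm 2 g ^ 2 + nm 2 h ^ 2 + 1)) := by
      field_simp
    rw [h3]
    have h4 : (nm 2 g ^ 2 + nm 2 h ^ 2) / (nm 2 g ^ 2 + nm 2 h ^ 2 + 1) ≤ 1 := by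
      rw [div_le_one (by positivity)]
      linarith
    nlinarith
  linarith

/-- smooth functions of compact support -/
theorem sverak_smooth {f : ℂ → ℂ} (hf : ContDiff ℝ ∞ f) (hc : HasCompactSupport f) :
    0 ≤ ∫ z, psi ‖dz f z‖ ‖db f z‖ := by
  have h4 : S_APP := Helper56.BA.APP Helper54.BA.CT
  have hf1 := contDiff_infty.1 hf 1
  refine psi_closed (dz_memLp hf1 hc 2) (db_memLp hf1 hc 2) fun ε hε => ?_
  obtain ⟨V, hVs, hVc, ha, hb⟩ := h4 f hf hc 2 (ε ^ (2 : ℝ)) (by norm_num) (by positivity)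
  have hs : ContDiff ℝ ∞ (fun x => 2 * db V x) :=
    contDiff_const.mul (Helper11.BA.db_smooth hVs)
  have hsc : HasCompactSupport (fun x => 2 * db V x) := (Helper11.BA.db_supp hVc).mul_left
  have hs1 := contDiff_infty.1 hs 1
  have m1 := dz_memLp hs1 hsc 2
  have m2 := db_memLp hs1 hsc 2
  exact ⟨_, _, m1, m2, nm_le_of (by norm_num) (m1.sub (dz_memLp hf1 hc 2)) hε.le ha,
    nm_le_of (by norm_num) (m2.sub (db_memLp hf1 hc 2)) hε.le hb, Helper82.IW.coreC V hVs hVc⟩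

/-- pairs in `L²` -/
theorem sverak {u v : ℂ → ℂ} (hu : MemLp u (ENNReal.ofReal 2) volume)
    (hv : MemLp v (ENNReal.ofReal 2) volume) (hr : Rel u v) :
    0 ≤ ∫ z, psi ‖u z‖ ‖v z‖ := by
  obtain ⟨H, h1, h2, h3, -, h4⟩ := approx (p := 2) (N := 1) (by norm_num) zero_le_one two hu
  have h5 := h3 v hv hr
  have e1 : ∫ z, psi ‖u z‖ ‖v z‖ = ∫ z, psi ‖u z‖ ‖H z‖ := by
    refine integral_congr_ae ?_
    filter_upwards [h5] with z hz
    rw [hz]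
  rw [e1]
  refine psi_closed hu h1 fun ε hε => ?_
  obtain ⟨φ, f1, f2, f3, f4⟩ := h4 ε hε
  have f5 := contDiff_infty.1 f1 1
  exact ⟨_, _, dz_memLp f5 f2 2, db_memLp f5 f2 2, f3, f4, sverak_smooth f1 f2⟩

end Pool.Agent.Helper28.IW
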